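import Pool.Agent.H428.W.Cmp

/-!
# The Jacobian over an extension field
-/

set_option autoImplicit false
set_option linter.all false

namespace Pool.Agent.H428.W

open Polynomial IsDedekindDomain

open Pool.Agent.Y160.SQ (CR crMap crMap_xp crMap_yy cr_hom_ext cm map_alg)
open Pool.Agent.Y160.SL (Jac jm)
open Pool.Agent.H428.V

section

variable {ℓ : ℕ} {E : Type} [Field E]

/-- The isomorphism of the Picard groups given by an equality of polynomials. -/
noncomputable def tr {f f' : E[X]} (h : f = f') :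
    Additive (CommRing.Pic (CR ℓ f)) →+ Additive (CommRing.Pic (CR ℓ f')) :=
  MonoidHom.toAdditive (CommRing.Pic.mapRingHom (crMap ℓ (RingHom.id E) f f'
    (by rw [Polynomial.map_id, h])))

theorem tr_tr {f f' : E[X]} (h : f = f') (h' : f' = f) (x : Additive (CommRing.Pic (CR ℓ f))) :
    tr h' (tr h x) = x := by
  subst h
  have h1 : crMap ℓ (RingHom.id E) f f (by rw [Polynomial.map_id]) = RingHom.id (CR ℓ f) := by
    apply cr_hom_ext
    · intro c
      rw [crMap_xp, Polynomial.map_id]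
      rfl
    · rw [crMap_xp, Polynomial.map_id]
      rfl
    · rw [crMap_yy]
      rfl
  unfold tr
  show Additive.ofMul (CommRing.Pic.mapRingHom (crMap ℓ (RingHom.id E) f f _)
    (CommRing.Pic.mapRingHom (crMap ℓ (RingHom.id E) f f _) (Additive.toMul x))) = x
  rw [h1, CommRing.Pic.mapRingHom_id]
  rfl

theorem tr_map {E' : Type} [Field E'] (φ : E →+* E') {f f₁ : E[X]} {f' f₁' : E'[X]} (h : f = f₁)
    (h' : f' = f₁') (h1 : f.map φ = f') (h2 : f₁.map φ = f₁')
    (x : Additive (CommRing.Pic (CR ℓ f))) :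
    tr h' (Additive.ofMul (CommRing.Pic.mapRingHom (crMap ℓ φ f f' h1) (Additive.toMul x))) =
      Additive.ofMul (CommRing.Pic.mapRingHom (crMap ℓ φ f₁ f₁' h2) (Additive.toMul (tr h x))) := by
  subst h
  subst h'
  unfold tr
  show Additive.ofMul (CommRing.Pic.mapRingHom (crMap ℓ (RingHom.id E') f' f' _)
    (CommRing.Pic.mapRingHom (crMap ℓ φ f f' h1) (Additive.toMul x))) =
    Additive.ofMul (CommRing.Pic.mapRingHom (crMap ℓ φ f f' h2)
      (CommRing.Pic.mapRingHom (crMap ℓ (RingHom.id E) f f _) (Additive.toMul x)))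
  rw [CommRing.Pic.mapRingHom_mapRingHom, CommRing.Pic.mapRingHom_mapRingHom]
  congr 2
  congr 1
  apply cr_hom_ext
  · intro c
    simp
  · simp
  · simp

end

section

variable {M L : Type} [Field M] [Field L] [Algebra M L] {Ω Ω' : Type} [Field Ω] [Algebra M Ω]
  [Algebra L Ω] [IsScalarTower M L Ω] [Field Ω'] [Algebra M Ω'] [Algebra L Ω']
  [IsScalarTower M L Ω']

variable (L) in
theorem eq_map (Ω : Type) [Field Ω] [Algebra M Ω] [Algebra L Ω] [IsScalarTower M L Ω] (g : M[X]) :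
    g.map (algebraMap M Ω) = (g.map (algebraMap M L)).map (algebraMap L Ω) := by
  rw [Polynomial.map_map, ← IsScalarTower.algebraMap_eq]

theorem tr_jm {ℓ : ℕ} (φ : Ω →ₐ[L] Ω') (g : M[X]) (x : Pool.Agent.Y160.SQ.Jac ℓ g Ω) :
    tr (eq_map L Ω' g) (Pool.Agent.Y160.SQ.jm ℓ g (φ.restrictScalars M) x) =
      Pool.Agent.Y160.SQ.jm ℓ (g.map (algebraMap M L)) φ (tr (eq_map L Ω g) x) := by
  rw [Pool.Agent.Y160.SQ.jm_eq, Pool.Agent.Y160.SQ.jm_eq]
  exact tr_map (φ : Ω →+* Ω') (eq_map L Ω g) (eq_map L Ω' g) (map_alg (φ.restrictScalars M))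
    (map_alg φ) x

theorem tr_jm' {ℓ : ℕ} (φ : Ω →ₐ[L] Ω') (g : M[X])
    (x : Pool.Agent.Y160.SQ.Jac ℓ (g.map (algebraMap M L)) Ω) :
    tr (eq_map L Ω' g).symm (Pool.Agent.Y160.SQ.jm ℓ (g.map (algebraMap M L)) φ x) =
      Pool.Agent.Y160.SQ.jm ℓ g (φ.restrictScalars M) (tr (eq_map L Ω g).symm x) := by
  rw [Pool.Agent.Y160.SQ.jm_eq, Pool.Agent.Y160.SQ.jm_eq]
  exact tr_map (φ : Ω →+* Ω') (eq_map L Ω g).symm (eq_map L Ω' g).symm (map_alg φ)
    (map_alg (φ.restrictScalars M)) x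

end

section

variable {M L : Type} [Field M] [Field L] [Algebra M L] {I : Type} (q : I → ℕ) (f : I → M[X])

/-- The Jacobian over `M`, as a functor over `L`, is the Jacobian over `L`. -/
theorem factor_bc :
    IsFactor (jacobians q f) (jacobians q fun i => (f i).map (algebraMap M L)) 1 := by
  refine ⟨fun Ω _ _ _ _ _ => AddMonoidHom.mk' (fun P i => tr (eq_map L Ω (f i)) (P i)) ?_,
    fun Ω _ _ _ _ _ => AddMonoidHom.mk' (fun P i => tr (eq_map L Ω (f i)).symm (P i)) ?_,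
    ?_, ?_, ?_⟩
  · intro P Q
    funext i
    exact map_add (tr (eq_map L Ω (f i))) (P i) (Q i)
  · intro P Q
    funext i
    exact map_add (tr (eq_map L Ω (f i)).symm) (P i) (Q i)
  · intro Ω Ω' _ _ _ _ _ _ _ _ _ _ φ P
    funext i
    exact tr_jm φ (f i) (P i)
  · intro Ω Ω' _ _ _ _ _ _ _ _ _ _ φ P
    funext i
    exact tr_jm' φ (f i) (P i)
  · intro Ω _ _ _ _ _ P
    rw [one_smul]
    funext i
    exact tr_tr (eq_map L Ω (f i)) (eq_map L Ω (f i)).symm (P i)

end

end Pool.Agent.H428.W
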