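import Pool.Agent.H428.V.Bridge
import Pool.Graph.R_seed8.Y713.SE.Stm

/-!
# Comparison of the two definitions of the Jacobian, the transfer and the Tate module
-/

set_option autoImplicit false
set_option linter.all false

namespace Pool.Agent.H428.V.B

section tate

open Pool.Agent.TH115.GD (Sep Comp)

variable {K : Type} [Field K] (A : GroupFunctor K) (S : Type) [CommRing S] [IsDedekindDomain S]
  [Algebra S K] [IsFractionRing S K]

/-- The `p`-adic Tate module of the group of the classes in `H ^ 1 (K, A)` which are locally trivial at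
the maximal ideals of `S` is zero: if the `c m` are classes in this group with `p ^ m c m = 0` and
`p c (m + 1) = c m` then they are zero. -/
def ShaTate (p : ℕ) : Prop :=
  ∀ c : ℕ → Cochain A, (∀ m, IsShaCocycle S (c m)) → (∀ m, IsCoboundary (p ^ m • c m)) →
    (∀ m, IsCoboundary (p • c (m + 1) - c m)) → ∀ m, IsCoboundary (c m)

variable {A}

lemma cob_iff {c : Cochain A} :
    IsCoboundary c ↔ Pool.Agent.H428.F.Cob (fun g : Gal K => act g) c := Iff.rfl

lemma cob_sub {c d : Cochain A} (h : IsCoboundary c) (h' : IsCoboundary d) :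
    IsCoboundary (c - d) := by
  obtain ⟨P, hP⟩ := h
  obtain ⟨Q, hQ⟩ := h'
  refine ⟨P - Q, fun σ => ?_⟩
  show c σ - d σ = _
  rw [hP, hQ, map_sub]
  abel

lemma cob_nsmul {c : Cochain A} (h : IsCoboundary c) (n : ℕ) : IsCoboundary (n • c) :=
  Pool.Agent.H428.F.Cob.nsmul (fun g : Gal K => act g) h n

variable {S}

theorem tate_of_kills {p : ℕ} (hp : p.Prime) {N : ℕ} (hN : N ≠ 0) (h : KillsSha A S p N) :
    ShaTate A S p := by
  intro c h1 h2 h3 m
  obtain ⟨a, u, hu, hau⟩ := Nat.exists_eq_pow_mul_and_not_dvd hN p hp.ne_one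
  have h4 : ∀ j : ℕ, IsCoboundary (p ^ j • c (m + j) - c m) := by
    intro j
    induction j with
    | zero =>
      refine ⟨0, fun σ => ?_⟩
      show p ^ 0 • c (m + 0) σ - c m σ = _
      rw [pow_zero, one_smul, map_zero, sub_zero, add_zero, sub_self]
    | succ j ih =>
      have h5 := cob_nsmul (h3 (m + j)) (p ^ j)
      have h6 := Pool.Agent.H428.F.Cob.add (fun g : Gal K => act g) h5 ih
      have h7 : p ^ j • (p • c (m + j + 1) - c (m + j)) + (p ^ j • c (m + j) - c m) =
          p ^ (j + 1) • c (m + (j + 1)) - c m := by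
        rw [smul_sub, smul_smul, ← pow_succ, ← add_assoc m j 1]
        abel
      rw [h7] at h6
      exact h6
  have h5 := h (c (m + a)) (m + a) (h1 _) (h2 _)
  have h6 := cob_nsmul (h4 a) u
  have h7 : IsCoboundary (u • c m) := by
    have h8 := cob_sub h5 h6
    have h9 : N • c (m + a) - u • (p ^ a • c (m + a) - c m) = u • c m := by
      rw [hau, smul_sub, smul_smul, mul_comm u (p ^ a)]
      abel
    rwa [h9] at h8
  exact Pool.Agent.H428.F.cob_coprime (fun g : Gal K => act g)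
    (Nat.Coprime.pow_left m ((Nat.Prime.coprime_iff_not_dvd hp).2 hu)) (h2 m) h7

end tate

end Pool.Agent.H428.V.B

namespace Pool.Agent.H428.W

open Polynomial IsDedekindDomain

open Pool.Agent.TH115.GD (Sep Comp incl rs ak)
open Pool.Agent.Y160.SL (Jac jm ShaTriv IsCoc IsCobOf)
open Pool.Agent.H428.V

section

variable {ℓ : ℕ} {K : Type} [Field K] {F : K[X]} {L L' : Type} [Field L] [Algebra K L] [Field L']
  [Algebra K L'] (φ : L →ₐ[K] L')

/-- multiplicative notation -/
def toM (x : Jac ℓ F L) : Pool.Agent.Y713.Jac.J ℓ F L :=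
  Additive.toMul (α := Pool.Agent.Y713.Jac.J ℓ F L) x

/-- additive notation -/
def ofM (x : Pool.Agent.Y713.Jac.J ℓ F L) : Jac ℓ F L :=
  Additive.ofMul (α := Pool.Agent.Y713.Jac.J ℓ F L) x

theorem coordMap_eq : Pool.Agent.Y713.Jac.coordMap ℓ F φ = Pool.Agent.Y160.SQ.cm ℓ F φ := by
  apply Pool.Agent.Y160.SQ.cr_hom_ext
  · intro c
    rw [Pool.Agent.Y160.SQ.crMap_xp]
    unfold Pool.Agent.Y713.Jac.coordMap
    exact AdjoinRoot.map_of _ _ _ _ _
  · rw [Pool.Agent.Y160.SQ.crMap_xp]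
    unfold Pool.Agent.Y713.Jac.coordMap
    exact AdjoinRoot.map_of _ _ _ _ _
  · rw [Pool.Agent.Y160.SQ.crMap_yy]
    unfold Pool.Agent.Y713.Jac.coordMap
    exact AdjoinRoot.map_root _ _ _ _

theorem toM_map (x : Jac ℓ F L) :
    toM (jm ℓ F φ x) = Pool.Agent.Y713.Jac.mapJ ℓ F φ (toM x) := by
  have h1 : toM (jm ℓ F φ x) = CommRing.Pic.mapRingHom (Pool.Agent.Y160.SQ.cm ℓ F φ) (toM x) :=
    congrArg Additive.toMul (Pool.Agent.Y160.SQ.jm_eq φ x)
  rw [h1, ← coordMap_eq]
  unfold Pool.Agent.Y713.Jac.mapJ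
  with_reducible rfl
theorem toM_sub (x y : Jac ℓ F L) : toM (x - y) = toM x / toM y := rfl
theorem toM_add (x y : Jac ℓ F L) : toM (x + y) = toM x * toM y := rfl
theorem toM_nsmul (n : ℕ) (x : Jac ℓ F L) : toM (n • x) = toM x ^ n := rfl
theorem toM_inj {x y : Jac ℓ F L} (h : toM x = toM y) : x = y := h
theorem toM_ofM (x : Pool.Agent.Y713.Jac.J ℓ F L) : toM (F := F) (ofM x) = x := rfl

end

section

variable {ℓ : ℕ} {K : Type} [Field K] {F : K[X]}

theorem loc_conv {E : Type} [Field E] [Algebra K E] {c : (Sep K ≃ₐ[K] Sep K) → Jac ℓ F (Sep K)}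
    (h : Pool.Agent.Y160.SL.LocTriv ℓ F E (Sep E) c) :
    Pool.Agent.Y713.Jac.IsTrivialOver ℓ F E (fun σ => toM (c σ)) := by
  obtain ⟨ι, P, hP⟩ := h
  refine ⟨ι, toM P, fun τ σ hτσ => ?_⟩
  have h4 := congrArg toM (hP τ σ hτσ)
  rw [toM_map, toM_sub, toM_map] at h4
  exact h4

theorem coc_conv {c : (Sep K ≃ₐ[K] Sep K) → Jac ℓ F (Sep K)} (h : IsCoc ℓ F c) :
    Pool.Agent.Y713.Jac.IsCocycle ℓ F (fun σ => toM (c σ)) := by
  refine ⟨h.lc.comp _, fun σ τ => ?_⟩
  have h4 := congrArg toM (h.mul σ τ)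
  rw [toM_add, toM_map] at h4
  exact h4

theorem zero_conv {c : (Sep K ≃ₐ[K] Sep K) → Jac ℓ F (Sep K)}
    (h : ∃ P, IsCobOf ℓ F c P) :
    Pool.Agent.Y713.Jac.IsCoboundary ℓ F (fun σ => toM (c σ)) := by
  obtain ⟨Q, hQ⟩ := h
  refine ⟨toM Q, fun σ => ?_⟩
  have h4 := congrArg toM (hQ σ)
  rw [toM_sub, toM_map] at h4
  exact h4

theorem zero_conv' {c : (Sep K ≃ₐ[K] Sep K) → Jac ℓ F (Sep K)}
    (h : Pool.Agent.Y713.Jac.IsCoboundary ℓ F (fun σ => toM (c σ))) :
    ∃ P, IsCobOf ℓ F c P := by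
  obtain ⟨Q, hQ⟩ := h
  refine ⟨ofM Q, fun σ => ?_⟩
  apply toM_inj
  rw [toM_sub, toM_map]
  exact hQ σ

theorem shaTriv_of {R : Type} [CommRing R] [IsDedekindDomain R] [Algebra R K] [IsFractionRing R K]
    (h : Pool.Agent.Y713.Jac.ShaPrimaryTrivial ℓ F R) : ShaTriv ℓ ℓ R F := by
  rintro c hc ⟨n, P, hP⟩ hv
  apply zero_conv'
  refine h _ n (coc_conv hc) (fun v => loc_conv (hv v)) ?_
  have h3 := zero_conv ⟨P, hP⟩
  exact h3

end

/-- **The transfer of the bound for the exponent.** -/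
theorem transferV {p : ℕ} {K S L A : Type} [Field K] [CommRing S]
    [IsDedekindDomain S] [Algebra S K] [IsFractionRing S K] [Field L] [CommRing A]
    [IsDedekindDomain A] [Algebra A L] [IsFractionRing A L] [Algebra K L] [FiniteDimensional K L]
    [IsGalois K L] [Algebra S A] [Algebra S L] [IsScalarTower S K L] [IsScalarTower S A L]
    [Algebra.IsIntegral S A] {I : Type} {q : I → ℕ} {f : I → L[X]}
    (h : ∀ i, ShaTriv p (q i) A (f i)) (X : GroupFunctor K) (n : ℕ)
    (hX : IsFactor X (jacobians q f) n) :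
    KillsSha X S p (n * Module.finrank K L) := by
  obtain ⟨N⟩ := hX.nat2
  obtain ⟨e⟩ := exists_e K L
  have _ : Algebra.IsSeparable L (Sep L) := IsSepClosure.separable
  intro c m hc hm
  refine kill N e hc.1 (sha_jac A h (push_coc N e hc.1) (fun w => ?_) (m := m) ?_)
  · obtain ⟨v, ⟨θ⟩⟩ := exists_comp (S := S) (L := L) K w
    exact push_loc N e hc.1 (hc.2 v) θ
  · have h3 := push_cob N e hm
    have h4 : push N e (p ^ m • c) = p ^ m • push N e c := by
      funext σ
      exact push_nsmul N e c (p ^ m) σ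
    rwa [h4] at h3

/-- **The transfer of the bound for the exponent.** -/
theorem transfer {p : ℕ} {K S L A : Type} [Field K] [CommRing S]
    [IsDedekindDomain S] [Algebra S K] [IsFractionRing S K] [Field L] [CommRing A]
    [IsDedekindDomain A] [Algebra A L] [IsFractionRing A L] [Algebra K L] [FiniteDimensional K L]
    [IsGalois K L] [Algebra S A] [Algebra S L] [IsScalarTower S K L] [IsScalarTower S A L]
    [Algebra.IsIntegral S A] {I : Type} {q : I → ℕ} {f : I → L[X]}
    (h : ∀ i, ShaTriv p (q i) A (f i)) (X : B.GroupFunctor K) (n : ℕ)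
    (hX : B.IsFactor X (B.jacobians q f) n) :
    B.KillsSha X S p (n * Module.finrank K L) :=
  transferV h (B.old X) n (B.factor_jac hX)

lemma old_jac {K : Type} [Field K] {I : Type} (q : I → ℕ) (f : I → K[X]) (S : Type) [CommRing S]
    [IsDedekindDomain S] [Algebra S K] [IsFractionRing S K] (p N : ℕ)
    (h : KillsSha (jacobians q f) S p N) : B.KillsSha (B.jacobians q f) S p N := by
  rw [B.old_kills]
  exact h

end Pool.Agent.H428.W
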