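import Mathlib

/-!
# The extensions `k(t)` of `k₀(t)`
-/

set_option autoImplicit false
set_option linter.all false

namespace Pool.Agent.H428.W

open Polynomial

/-- `k(t)` is a finite Galois extension of `k₀(t)` if `k` is one of `k₀`. -/
theorem exists_rat (k₀ k : Type) [Field k₀] [Field k] [Algebra k₀ k] [FiniteDimensional k₀ k]
    [IsGalois k₀ k] (M L : Type) [Field M] [Algebra k₀[X] M] [IsFractionRing k₀[X] M] [Field L]
    [Algebra k[X] L] [IsFractionRing k[X] L] :
    ∃ (_ : Algebra M L) (_ : Algebra k₀[X] k[X]) (_ : Algebra k₀[X] L), FiniteDimensional M L ∧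
      IsGalois M L ∧ IsScalarTower k₀[X] M L ∧ IsScalarTower k₀[X] k[X] L ∧
      Algebra.IsIntegral k₀[X] k[X] ∧
      (∀ p : k₀[X], algebraMap M L (algebraMap k₀[X] M p) =
        algebraMap k[X] L (p.map (algebraMap k₀ k))) := by
  let i1 : Algebra k₀[X] k[X] := (mapRingHom (algebraMap k₀ k)).toAlgebra
  let i2 : Algebra k₀[X] L := ((algebraMap k[X] L).comp (mapRingHom (algebraMap k₀ k))).toAlgebra
  have i3 : IsScalarTower k₀[X] k[X] L := IsScalarTower.of_algebraMap_eq fun _ => rfl
  have hinj : Function.Injective (algebraMap k₀[X] L) :=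
    (IsFractionRing.injective k[X] L).comp (map_injective _ (algebraMap k₀ k).injective)
  let φ : M →+* L := IsFractionRing.lift hinj
  let i4 : Algebra M L := φ.toAlgebra
  have hφ : ∀ p : k₀[X], algebraMap M L (algebraMap k₀[X] M p) =
      algebraMap k[X] L (p.map (algebraMap k₀ k)) := fun p => IsFractionRing.lift_algebraMap hinj p
  have i5 : IsScalarTower k₀[X] M L := IsScalarTower.of_algebraMap_eq fun p => (hφ p).symm
  have hint : Algebra.IsIntegral k₀[X] k[X] := by
    refine ⟨fun p => ?_⟩
    induction p using Polynomial.induction_on' with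
    | add p q hp hq => exact hp.add hq
    | monomial n a =>
      rw [← C_mul_X_pow_eq_monomial]
      have h1 : IsIntegral k₀[X] (C a : k[X]) :=
        (Algebra.IsIntegral.isIntegral (R := k₀) a).map_of_comp_eq (C : k₀ →+* k₀[X])
          (C : k →+* k[X]) (RingHom.ext fun x => by
            show (C x : k₀[X]).map (algebraMap k₀ k) = C (algebraMap k₀ k x)
            rw [map_C])
      have h2 : IsIntegral k₀[X] (X : k[X]) := by
        have h3 : (X : k[X]) = algebraMap k₀[X] k[X] X := by
          show X = (X : k₀[X]).map (algebraMap k₀ k)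
          rw [map_X]
        rw [h3]
        exact isIntegral_algebraMap
      exact h1.mul (h2.pow n)
  obtain ⟨μ, hμ, hs⟩ := IsGalois.is_separable_splitting_field k₀ k
  -- the constants
  let c₀ : k₀ →+* M := (algebraMap k₀[X] M).comp C
  let c : k →+* L := (algebraMap k[X] L).comp C
  have hcc : ∀ x : k₀, algebraMap M L (c₀ x) = c (algebraMap k₀ k x) := by
    intro x
    show algebraMap M L (algebraMap k₀[X] M (C x)) = algebraMap k[X] L (C (algebraMap k₀ k x))
    rw [hφ, map_C]
  have hcomp : (algebraMap M L).comp c₀ = c.comp (algebraMap k₀ k) := RingHom.ext hcc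
  have hmap : (μ.map c₀).map (algebraMap M L) = (μ.map (algebraMap k₀ k)).map c := by
    rw [Polynomial.map_map, Polynomial.map_map, hcomp]
  have hμ0 : μ ≠ 0 := hμ.ne_zero
  have hsp : (μ.map c₀).IsSplittingField M L := by
    rw [isSplittingField_iff_intermediateField]
    constructor
    · rw [hmap]
      exact (hs.splits).map c
    · rw [eq_top_iff]
      set T := IntermediateField.adjoin M ((μ.map c₀).rootSet L) with hT
      have h1 : ∀ a : k, c a ∈ T := by
        intro a
        have h2 : a ∈ Algebra.adjoin k₀ (μ.rootSet k) := by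
          rw [hs.adjoin_rootSet]
          trivial
        induction h2 using Algebra.adjoin_induction with
        | mem x hx =>
          apply IntermediateField.subset_adjoin
          rw [mem_rootSet] at hx ⊢
          refine ⟨(Polynomial.map_ne_zero_iff c₀.injective).2 hμ0, ?_⟩
          have h3 : aeval (c x) (μ.map c₀) = c (aeval x μ) := by
            rw [aeval_def, eval₂_map, hcomp, aeval_def, hom_eval₂]
          rw [h3, hx.2, map_zero]
        | algebraMap r =>
          rw [← hcc]
          exact T.algebraMap_mem _
        | add x y _ _ hx hy =>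
          rw [map_add]
          exact T.add_mem hx hy
        | mul x y _ _ hx hy =>
          rw [map_mul]
          exact T.mul_mem hx hy
      have h4 : ∀ p : k[X], algebraMap k[X] L p ∈ T := by
        intro p
        induction p using Polynomial.induction_on' with
        | add p q hp hq =>
          rw [map_add]
          exact T.add_mem hp hq
        | monomial n a =>
          rw [← C_mul_X_pow_eq_monomial, map_mul, map_pow]
          refine T.mul_mem (h1 a) (pow_mem ?_ n)
          have h5 := hφ X
          rw [map_X] at h5
          rw [← h5]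
          exact T.algebraMap_mem _
      intro x _
      obtain ⟨a, b, -, rfl⟩ := IsFractionRing.div_surjective (A := k[X]) x
      exact T.div_mem (h4 a) (h4 b)
  have hfd : FiniteDimensional M L := IsSplittingField.finiteDimensional L (μ.map c₀)
  have hgal : IsGalois M L := IsGalois.of_separable_splitting_field (p := μ.map c₀) hμ.map
  exact ⟨i4, i1, i2, hfd, hgal, i5, i3, hint, hφ⟩

/-- A finite extension of a finitely generated field is finitely generated. -/
theorem fg_of_finite (k₀ k : Type) [Field k₀] [Field k] [Algebra k₀ k] [FiniteDimensional k₀ k]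
    (h : ∃ s : Finset k₀, Subfield.closure (s : Set k₀) = ⊤) :
    ∃ s : Finset k, Subfield.closure (s : Set k) = ⊤ := by
  classical
  obtain ⟨s, hs⟩ := h
  let b := Module.finBasis k₀ k
  refine ⟨s.image (algebraMap k₀ k) ∪ Finset.univ.image b, ?_⟩
  rw [eq_top_iff]
  intro x _
  set T := Subfield.closure ((s.image (algebraMap k₀ k) ∪ Finset.univ.image b : Finset k) : Set k)
    with hT
  have h1 : ∀ a : k₀, algebraMap k₀ k a ∈ T := by
    intro a
    have h2 : (Subfield.closure (s : Set k₀)).map (algebraMap k₀ k) ≤ T := by
      rw [RingHom.map_field_closure, Subfield.closure_le]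
      rintro y ⟨z, hz, rfl⟩
      apply Subfield.subset_closure
      rw [Finset.mem_coe, Finset.mem_union]
      exact Or.inl (Finset.mem_image_of_mem _ (Finset.mem_coe.1 hz))
    apply h2
    rw [hs]
    exact ⟨a, trivial, rfl⟩
  have h3 : ∀ i, b i ∈ T := by
    intro i
    apply Subfield.subset_closure
    rw [Finset.mem_coe, Finset.mem_union]
    exact Or.inr (Finset.mem_image_of_mem _ (Finset.mem_univ i))
  rw [← b.sum_repr x]
  refine T.sum_mem fun i _ => ?_
  rw [Algebra.smul_def]
  exact T.mul_mem (h1 _) (h3 i)

end Pool.Agent.H428.W
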