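import Pool.Agent.H428.W.Bc
import Pool.Agent.H428.W.Rat

/-!
# The Jacobian over `k₀(t)` and over `k(t)`
-/

set_option autoImplicit false
set_option linter.all false

namespace Pool.Agent.H428.W

open Polynomial IsDedekindDomain

open Pool.Agent.H428.V

/-- **The Jacobian over `k₀(t)` and over `k(t)`.** -/
theorem over_base (k₀ k : Type) [Field k₀] [Field k] [Algebra k₀ k] [FiniteDimensional k₀ k]
    [IsGalois k₀ k] (M L : Type) [Field M] [Algebra k₀[X] M] [IsFractionRing k₀[X] M] [Field L]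
    [Algebra k[X] L] [IsFractionRing k[X] L] :
    ∃ (N : ℕ) (φ : M →+* L), N ≠ 0 ∧ (∀ p : k₀[X], φ (algebraMap k₀[X] M p) =
        algebraMap k[X] L (p.map (algebraMap k₀ k))) ∧
      ∀ (ℓ : ℕ) (f : M[X]), Pool.Agent.Y713.Jac.ShaPrimaryTrivial ℓ (f.map φ) k[X] →
        B.KillsSha (B.jacobians (fun _ : Unit => ℓ) fun _ => f) k₀[X] ℓ N := by
  obtain ⟨i1, i2, i3, h1, h2, h3, h4, h5, h6⟩ := exists_rat k₀ k M L
  refine ⟨Module.finrank M L, algebraMap M L, Module.finrank_pos.ne', h6, fun ℓ f hf => ?_⟩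
  apply old_jac
  have h7 := transferV (p := ℓ) (K := M) (S := k₀[X]) (L := L) (A := k[X]) (I := Unit)
    (q := fun _ => ℓ) (f := fun _ => f.map (algebraMap M L)) (fun _ => shaTriv_of hf)
    (jacobians (fun _ : Unit => ℓ) fun _ => f) 1 (factor_bc (fun _ : Unit => ℓ) fun _ => f)
  rwa [one_mul] at h7

/-- **The transfer**, with a homomorphism `S → A`. -/
theorem transfer' {p : ℕ} {K S L A : Type} [Field K] [CommRing S]
    [IsDedekindDomain S] [Algebra S K] [IsFractionRing S K] [Field L] [CommRing A]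
    [IsDedekindDomain A] [Algebra A L] [IsFractionRing A L] [Algebra K L] [FiniteDimensional K L]
    [IsGalois K L] (ι : S →+* A)
    (h1 : ∀ s, algebraMap K L (algebraMap S K s) = algebraMap A L (ι s)) (h2 : ι.IsIntegral)
    {I : Type} {q : I → ℕ} {f : I → L[X]}
    (h : ∀ i, Pool.Agent.Y160.SL.ShaTriv p (q i) A (f i)) (X : B.GroupFunctor K) (n : ℕ)
    (hX : B.IsFactor X (B.jacobians q f) n) :
    B.KillsSha X S p (n * Module.finrank K L) := by
  let i1 : Algebra S A := ι.toAlgebra
  let i2 : Algebra S L := ((algebraMap A L).comp ι).toAlgebra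
  have i3 : IsScalarTower S A L := IsScalarTower.of_algebraMap_eq fun _ => rfl
  have i4 : IsScalarTower S K L := IsScalarTower.of_algebraMap_eq fun s => (h1 s).symm
  have i5 : Algebra.IsIntegral S A := ⟨h2⟩
  exact transfer h X n hX

end Pool.Agent.H428.W
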